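import Mathlib

/-!
# The additivity number of `Split(Ω, Λ)` is at most the cofinality of the ultrafilter number

`𝔲` is the least cardinality of a base of a nonprincipal ultrafilter on `ℕ`.  We show in ZFC
that `add (Split(Ω, Λ)) ≤ cf 𝔲`.  Sets of reals with fewer than `𝔲` points have the property,
some set of reals with exactly `𝔲` points does not have it, and this set is the union of `cf 𝔲`
smaller sets.
-/

set_option autoImplicit false

open Set Topology Cardinal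

namespace Pool.Agent.Results.MP_312f56_gt.AddLeCofUltrafilter

/-- `𝒰` is an open cover of the space `α`: its members are open, its union is `α`, and `α` itself
is not a member of `𝒰`. -/
def IsOpenCov {α : Type} [TopologicalSpace α] (𝒰 : Set (Set α)) : Prop :=
  (∀ U ∈ 𝒰, IsOpen U) ∧ ⋃₀ 𝒰 = Set.univ ∧ Set.univ ∉ 𝒰

/-- `𝒰 ∈ Λ(α)`: an open cover such that every point belongs to infinitely many members. -/
def IsLargeCov {α : Type} [TopologicalSpace α] (𝒰 : Set (Set α)) : Prop :=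
  IsOpenCov 𝒰 ∧ ∀ x : α, {U | U ∈ 𝒰 ∧ x ∈ U}.Infinite

/-- `𝒰 ∈ Ω(α)`: an open cover such that every finite subset of `α` is contained in a member. -/
def IsOmegaCov {α : Type} [TopologicalSpace α] (𝒰 : Set (Set α)) : Prop :=
  IsOpenCov 𝒰 ∧ ∀ F : Set α, F.Finite → ∃ U ∈ 𝒰, F ⊆ U

/-- `Split(Ω, Λ)` for the space `α`: every open `ω`-cover is the union of two disjoint subfamilies
each of which contains an open large cover. -/
def HasSplit (α : Type) [TopologicalSpace α] : Prop :=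
  ∀ 𝒰 : Set (Set α), IsOmegaCov 𝒰 → ∃ 𝒱 𝒲 : Set (Set α), 𝒱 ∪ 𝒲 = 𝒰 ∧ Disjoint 𝒱 𝒲 ∧
    (∃ 𝒱' ⊆ 𝒱, IsLargeCov 𝒱') ∧ ∃ 𝒲' ⊆ 𝒲, IsLargeCov 𝒲'

/-- The family of all sets of reals (with the subspace topology) satisfying `Split(Ω, Λ)`. -/
def splitSets : Set (Set ℝ) := {X | HasSplit X}

/-- The additivity number: the least cardinality of a family of sets of reals satisfying
`Split(Ω, Λ)` whose union does not satisfy `Split(Ω, Λ)`. -/
noncomputable def addSplit : Cardinal.{0} :=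
  sInf {κ | ∃ 𝓕 : Set (Set ℝ), 𝓕 ⊆ splitSets ∧ ⋃₀ 𝓕 ∉ splitSets ∧ #𝓕 = κ}

/-- The ultrafilter number `𝔲`: the least cardinality of a base of a nonprincipal ultrafilter
on `ℕ`. -/
noncomputable def ultraNumber : Cardinal.{0} :=
  sInf {κ | ∃ p : Ultrafilter ℕ, (p : Filter ℕ) ≤ Filter.cofinite ∧
    ∃ B : Set (Set ℕ), (∀ b ∈ B, b ∈ p) ∧ (∀ a ∈ p, ∃ b ∈ B, b ⊆ a) ∧ #B = κ}

lemma ultra_mem : ultraNumber ∈ {κ | ∃ p : Ultrafilter ℕ, (p : Filter ℕ) ≤ Filter.cofinite ∧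
    ∃ B : Set (Set ℕ), (∀ b ∈ B, b ∈ p) ∧ (∀ a ∈ p, ∃ b ∈ B, b ⊆ a) ∧ #B = κ} := by
  apply csInf_mem
  refine ⟨_, Filter.hyperfilter ℕ, Filter.hyperfilter_le_cofinite, {a | a ∈ Filter.hyperfilter ℕ},
    fun b hb => hb, fun a ha => ⟨a, ha, Subset.rfl⟩, rfl⟩

lemma aleph0_le_ultra : ℵ₀ ≤ ultraNumber := by
  obtain ⟨p, hp, B, hB, hBase, hc⟩ := ultra_mem
  by_contra hlt
  rw [not_le, ← hc, Cardinal.lt_aleph0_iff_finite] at hlt
  have hfin : B.Finite := Set.toFinite B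
  have hmem : ⋂₀ B ∈ (p : Filter ℕ) := (Filter.sInter_mem hfin).2 hB
  obtain ⟨n, hn⟩ := p.nonempty_of_mem hmem
  have h1 : ({n} : Set ℕ)ᶜ ∈ (p : Filter ℕ) := hp (by
    rw [Filter.mem_cofinite]; simp)
  obtain ⟨b, hb, hb'⟩ := hBase _ h1
  exact hb' (hn b hb) rfl

/-- A countable subfamily of an `ω`-cover of a second countable space catching all finite sets. -/
lemma exists_countable_sub {α : Type} [TopologicalSpace α] [SecondCountableTopology α]
    {𝒰 : Set (Set α)} (h : IsOmegaCov 𝒰) :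
    ∃ 𝒞 ⊆ 𝒰, 𝒞.Countable ∧ ∀ F : Set α, F.Finite → ∃ U ∈ 𝒞, F ⊆ U := by
  classical
  set b := TopologicalSpace.countableBasis α with hb
  let I : Set (Set (Set α)) := {s | s.Finite ∧ s ⊆ b}
  have hI : I.Countable := Set.countable_ofPred_finite_subset (TopologicalSpace.countable_countableBasis α)
  let g : Set (Set α) → Set α := fun s => if hs : ∃ U ∈ 𝒰, Set.sUnion s ⊆ U then hs.choose else Set.univ
  have hg : ∀ s : Set (Set α), (∃ U ∈ 𝒰, ⋃₀ s ⊆ U) → g s ∈ 𝒰 ∧ ⋃₀ s ⊆ g s := by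
    intro s hs
    have : g s = hs.choose := dif_pos hs
    rw [this]
    exact hs.choose_spec
  refine ⟨g '' {s ∈ I | ∃ U ∈ 𝒰, ⋃₀ s ⊆ U}, ?_, (hI.mono (sep_subset _ _)).image g, ?_⟩
  · rintro _ ⟨s, hs, rfl⟩
    exact (hg s hs.2).1
  · intro F hF
    obtain ⟨U, hU, hFU⟩ := h.2 F hF
    have hUo := h.1.1 U hU
    have hx : ∀ x ∈ F, ∃ v ∈ b, x ∈ v ∧ v ⊆ U := fun x hx =>
      (TopologicalSpace.isBasis_countableBasis α).exists_subset_of_mem_open (hFU hx) hUo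
    choose! v hv1 hv2 hv3 using hx
    have hsub : ⋃₀ (v '' F) ⊆ U := by
      rintro y ⟨_, ⟨x, hx, rfl⟩, hy⟩
      exact hv3 x hx hy
    refine ⟨g (v '' F), ⟨v '' F, ⟨⟨hF.image v, ?_⟩, U, hU, hsub⟩, rfl⟩, ?_⟩
    · rintro _ ⟨x, hx, rfl⟩
      exact hv1 x hx
    · intro x hx
      exact (hg _ ⟨U, hU, hsub⟩).2 ⟨v x, ⟨x, hx, rfl⟩, hv2 x hx⟩

/-- Spaces with fewer than `𝔲` points have `Split(Ω, Λ)`. -/
lemma hasSplit_of_lt {α : Type} [TopologicalSpace α] [SecondCountableTopology α]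
    (hα : #α < ultraNumber) : HasSplit α := by
  classical
  intro 𝒰 h𝒰
  rcases finite_or_infinite α with hfin | hinf
  · obtain ⟨U, hU, hU'⟩ := h𝒰.2 Set.univ (Set.toFinite _)
    exact absurd ((univ_subset_iff.1 hU') ▸ hU) h𝒰.1.2.2
  obtain ⟨𝒞, h𝒞, hcount, hcatch⟩ := exists_countable_sub h𝒰
  have hne : ∀ U ∈ 𝒞, ∃ x, x ∉ U := by
    intro U hU
    by_contra hcon
    push Not at hcon
    exact h𝒰.1.2.2 ((eq_univ_of_forall hcon) ▸ h𝒞 hU)
  choose! y hy using hne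
  have h𝒞inf : 𝒞.Infinite := by
    intro hf
    obtain ⟨U, hU, hU'⟩ := hcatch (y '' 𝒞) (hf.image y)
    exact hy U hU (hU' ⟨U, hU, rfl⟩)
  have : Countable 𝒞 := hcount.to_subtype
  have : Infinite 𝒞 := h𝒞inf.to_subtype
  obtain ⟨e⟩ : Nonempty (ℕ ≃ 𝒞) := nonempty_equiv_of_countable
  let U : ℕ → Set α := fun n => (e n : Set α)
  have hUmem : ∀ n, U n ∈ 𝒞 := fun n => (e n).2
  have hUinj : Function.Injective U := fun m n h => e.injective (Subtype.ext h)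
  have hUsurj : ∀ V ∈ 𝒞, ∃ n, U n = V := fun V hV => ⟨e.symm ⟨V, hV⟩, by simp [U]⟩
  let A : α → Set ℕ := fun x => {n | x ∈ U n}
  have hA : ∀ F : Set α, F.Finite → {n | F ⊆ U n}.Infinite := by
    intro F hF hfin
    obtain ⟨V, hV, hV'⟩ := hcatch (F ∪ (fun n => y (U n)) '' {n | F ⊆ U n}) (hF.union (hfin.image _))
    obtain ⟨n, rfl⟩ := hUsurj V hV
    have h1 : F ⊆ U n := subset_union_left.trans hV'
    exact hy (U n) (hUmem n) (hV' (Or.inr ⟨n, h1, rfl⟩))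
  have key : ∃ B : Set ℕ, ∀ x, (A x ∩ B).Infinite ∧ (A x \ B).Infinite := by
    by_contra hcon
    push Not at hcon
    have hcon' : ∀ B : Set ℕ, ∃ x, (A x ∩ B).Finite ∨ (A x \ B).Finite := by
      intro B
      obtain ⟨x, hx⟩ := hcon B
      refine ⟨x, ?_⟩
      by_cases h : (A x ∩ B).Infinite
      · exact Or.inr (by simpa using hx h)
      · exact Or.inl (not_infinite.1 h)
    obtain ⟨x₀⟩ : Nonempty α := inferInstance
    let 𝓕 : Filter ℕ :=
      { sets := {S | ∃ x, (A x \ S).Finite}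
        univ_sets := ⟨x₀, by simp⟩
        sets_of_superset := by
          rintro S T ⟨x, hx⟩ hST
          exact ⟨x, hx.subset (sdiff_subset_sdiff_right hST)⟩
        inter_sets := by
          rintro S T ⟨x, hx⟩ ⟨z, hz⟩
          obtain ⟨w, hw | hw⟩ := hcon' (S ∩ T)
          · exfalso
            refine hA {x, z, w} (by simp) (((hx.union hz).union hw).subset ?_)
            intro n hn
            have h1 : n ∈ A x := hn (by simp)
            have h2 : n ∈ A z := hn (by simp)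
            have h3 : n ∈ A w := hn (by simp)
            by_cases hS : n ∈ S
            · by_cases hT : n ∈ T
              · exact Or.inr ⟨h3, hS, hT⟩
              · exact Or.inl (Or.inr ⟨h2, hT⟩)
            · exact Or.inl (Or.inl ⟨h1, hS⟩)
          · exact ⟨w, hw⟩ }
    have hmem : ∀ S, S ∈ 𝓕 ↔ ∃ x, (A x \ S).Finite := fun S => Iff.rfl
    have hcompl : ∀ S, Sᶜ ∉ 𝓕 ↔ S ∈ 𝓕 := by
      intro S
      constructor
      · intro hS
        obtain ⟨x, hx | hx⟩ := hcon' S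
        · exact absurd ((hmem _).2 ⟨x, by simpa [sdiff_eq] using hx⟩) hS
        · exact (hmem _).2 ⟨x, hx⟩
      · rintro ⟨x, hx⟩ ⟨z, hz⟩
        refine hA {x, z} (by simp) ((hx.union hz).subset ?_)
        intro n hn
        have h1 : n ∈ A x := hn (by simp)
        have h2 : n ∈ A z := hn (by simp)
        by_cases hS : n ∈ S
        · exact Or.inr ⟨h2, fun h => h hS⟩
        · exact Or.inl ⟨h1, hS⟩
    let p : Ultrafilter ℕ := Ultrafilter.ofComplNotMemIff 𝓕 hcompl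
    have hp : (p : Filter ℕ) = 𝓕 := rfl
    have hpcof : (p : Filter ℕ) ≤ Filter.cofinite := by
      rw [hp]
      intro S hS
      rw [Filter.mem_cofinite] at hS
      exact (hmem _).2 ⟨x₀, hS.subset (fun n hn => hn.2)⟩
    let Bs : Set (Set ℕ) := range (fun q : α × Finset ℕ => A q.1 \ (q.2 : Set ℕ))
    have hle : ultraNumber ≤ #Bs := by
      apply csInf_le'
      refine ⟨p, hpcof, Bs, ?_, ?_, rfl⟩
      · rintro _ ⟨⟨x, F⟩, rfl⟩
        change _ ∈ 𝓕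
        refine (hmem _).2 ⟨x, F.finite_toSet.subset ?_⟩
        rintro n ⟨h1, h2⟩
        by_contra h3
        exact h2 ⟨h1, h3⟩
      · intro S hS
        obtain ⟨x, hx⟩ := (hmem S).1 hS
        refine ⟨_, ⟨(x, hx.toFinset), rfl⟩, ?_⟩
        rintro n ⟨h1, h2⟩
        by_contra h3
        exact h2 (by simpa using ⟨h1, h3⟩)
    have hle2 : #Bs ≤ #α := by
      calc #Bs ≤ #(α × Finset ℕ) := mk_range_le
        _ = #α := by
          rw [mk_prod, lift_id, lift_id, mk_finset_of_infinite, mk_nat]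
          exact mul_aleph0_eq (aleph0_le_mk α)
    exact absurd (hle.trans hle2) (not_le.2 hα)
  obtain ⟨B, hB⟩ := key
  have hlarge : ∀ D : Set ℕ, (∀ x, (A x ∩ D).Infinite) → IsLargeCov (U '' D) := by
    intro D hD
    have hinfD : ∀ x, {V | V ∈ U '' D ∧ x ∈ V}.Infinite := by
      intro x
      refine ((hD x).image (f := U) (fun m _ n _ h => hUinj h)).mono ?_
      rintro _ ⟨n, ⟨h1, h2⟩, rfl⟩
      exact ⟨⟨n, h2, rfl⟩, h1⟩
    refine ⟨⟨?_, ?_, ?_⟩, hinfD⟩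
    · rintro _ ⟨n, -, rfl⟩
      exact h𝒰.1.1 _ (h𝒞 (hUmem n))
    · refine eq_univ_of_forall fun x => ?_
      obtain ⟨V, hV, hxV⟩ := (hinfD x).nonempty
      exact ⟨V, hV, hxV⟩
    · rintro ⟨n, -, hn⟩
      exact h𝒰.1.2.2 (hn ▸ h𝒞 (hUmem n))
  refine ⟨𝒰 \ (U '' Bᶜ), U '' Bᶜ, ?_, disjoint_sdiff_left, ⟨U '' B, ?_, hlarge B fun x => (hB x).1⟩,
    U '' Bᶜ, Subset.rfl, hlarge Bᶜ fun x => by simpa [sdiff_eq] using (hB x).2⟩
  · refine sdiff_union_of_subset ?_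
    rintro _ ⟨n, -, rfl⟩
    exact h𝒞 (hUmem n)
  · rintro _ ⟨n, hn, rfl⟩
    refine ⟨h𝒞 (hUmem n), ?_⟩
    rintro ⟨m, hm, hmn⟩
    exact hm (hUinj hmn ▸ hn)

/-- There is a set of reals of cardinality `𝔲` without `Split(Ω, Λ)`. -/
lemma exists_not_split : ∃ X : Set ℝ, #X = ultraNumber ∧ X ∉ splitSets := by
  classical
  obtain ⟨p, hp, B, hB, hBase, hc⟩ := ultra_mem
  obtain ⟨f, -, hfc, hfi⟩ := IsClosed.exists_nat_bool_injection_of_not_countable
    (C := (Set.univ : Set ℝ)) isClosed_univ Cardinal.not_countable_real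
  have hemb : IsClosedEmbedding f := hfc.isClosedEmbedding hfi
  let χ : Set ℕ → (ℕ → Bool) := fun b n => decide (n ∈ b)
  have hχ : Function.Injective χ := by
    intro b c h
    ext n
    have := congrFun h n
    simpa [χ] using this
  let F : Set ℕ → ℝ := fun b => f (χ b)
  have hF : Function.Injective F := hfi.comp hχ
  refine ⟨F '' B, (mk_image_eq hF).trans hc, ?_⟩
  intro hsplit
  change HasSplit (F '' B : Set ℝ) at hsplit
  let pt : ∀ b ∈ B, (F '' B : Set ℝ) := fun b hb => ⟨F b, b, hb, rfl⟩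
  let U : ℕ → Set (F '' B : Set ℝ) := fun n => {x | ∃ b ∈ B, F b = x ∧ n ∈ b}
  have hUpt : ∀ n b (hb : b ∈ B), pt b hb ∈ U n ↔ n ∈ b := by
    intro n b hb
    constructor
    · rintro ⟨c, -, h1, h2⟩
      rwa [← hF h1]
    · intro h
      exact ⟨b, hb, rfl, h⟩
  have hpt : ∀ x : (F '' B : Set ℝ), ∃ b, ∃ hb : b ∈ B, x = pt b hb := by
    rintro ⟨_, b, hb, rfl⟩
    exact ⟨b, hb, rfl⟩
  have hUopen : ∀ n, IsOpen (U n) := by
    intro n
    have h1 : IsOpen {g : ℕ → Bool | g n = true} := by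
      have hc : Continuous (fun g : ℕ → Bool => g n) := continuous_apply n
      exact (isOpen_discrete ({true} : Set Bool)).preimage hc
    obtain ⟨O, hO, hO'⟩ := hemb.isInducing.isOpen_iff.1 h1
    have : U n = Subtype.val ⁻¹' O := by
      ext x
      obtain ⟨b, hb, rfl⟩ := hpt x
      rw [hUpt n b hb]
      have h2 : χ b ∈ f ⁻¹' O ↔ χ b ∈ {g : ℕ → Bool | g n = true} := by rw [hO']
      have h3 : χ b ∈ {g : ℕ → Bool | g n = true} ↔ n ∈ b := by simp [χ]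
      exact (h3.symm.trans h2.symm)
    rw [this]
    exact hO.preimage continuous_subtype_val
  have homega : ∀ G : Set (F '' B : Set ℝ), G.Finite → ∃ n, G ⊆ U n := by
    intro G hG
    have h1 : ∀ x : (F '' B : Set ℝ), {n | x ∈ U n} ∈ (p : Filter ℕ) := by
      intro x
      obtain ⟨b, hb, rfl⟩ := hpt x
      refine Filter.mem_of_superset (hB b hb) ?_
      intro n hn
      exact (hUpt n b hb).2 hn
    have h2 : (⋂ x ∈ G, {n | x ∈ U n}) ∈ (p : Filter ℕ) :=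
      (Filter.biInter_mem hG).2 fun x _ => h1 x
    obtain ⟨n, hn⟩ := p.nonempty_of_mem h2
    refine ⟨n, fun x hx => ?_⟩
    simp only [mem_iInter] at hn
    exact hn x hx
  have hcov : IsOmegaCov (range U) := by
    refine ⟨⟨?_, ?_, ?_⟩, ?_⟩
    · rintro _ ⟨n, rfl⟩
      exact hUopen n
    · refine eq_univ_of_forall fun x => ?_
      obtain ⟨n, hn⟩ := homega {x} (finite_singleton x)
      exact ⟨U n, ⟨n, rfl⟩, hn rfl⟩
    · rintro ⟨n, hn⟩
      have h1 : ({n} : Set ℕ)ᶜ ∈ (p : Filter ℕ) := hp (by rw [Filter.mem_cofinite]; simp)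
      obtain ⟨b, hb, hb'⟩ := hBase _ h1
      have : pt b hb ∈ U n := by rw [hn]; trivial
      exact hb' ((hUpt n b hb).1 this) rfl
    · intro G hG
      obtain ⟨n, hn⟩ := homega G hG
      exact ⟨U n, ⟨n, rfl⟩, hn⟩
  obtain ⟨𝒱, 𝒲, hVW, hdisj, ⟨𝒱', hV', hVl⟩, 𝒲', hW', hWl⟩ := hsplit _ hcov
  rcases p.mem_or_compl_mem {n | U n ∈ 𝒱} with hmem | hmem
  · obtain ⟨b, hb, hbs⟩ := hBase _ hmem
    obtain ⟨V, hV, hx⟩ := (hWl.2 (pt b hb)).nonempty
    have hVW2 : V ∈ range U := by rw [← hVW]; exact Or.inr (hW' hV)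
    obtain ⟨n, rfl⟩ := hVW2
    exact disjoint_left.1 hdisj (hbs ((hUpt n b hb).1 hx)) (hW' hV)
  · obtain ⟨b, hb, hbs⟩ := hBase _ hmem
    obtain ⟨V, hV, hx⟩ := (hVl.2 (pt b hb)).nonempty
    have hVW2 : V ∈ range U := by rw [← hVW]; exact Or.inl (hV' hV)
    obtain ⟨n, rfl⟩ := hVW2
    exact hbs ((hUpt n b hb).1 hx) (hV' hV)

lemma exists_family : ∃ 𝓕 : Set (Set ℝ), 𝓕 ⊆ splitSets ∧ ⋃₀ 𝓕 ∉ splitSets ∧
    #𝓕 ≤ ultraNumber.ord.cof := by
  obtain ⟨X, hX, hXs⟩ := exists_not_split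
  have hcard : #(ultraNumber.ord.ToType) = #X := by rw [mk_ord_toType, hX]
  obtain ⟨e⟩ := Cardinal.eq.1 hcard
  obtain ⟨s, hs, hsc⟩ := Order.exists_cof_eq (ultraNumber.ord.ToType)
  have hsc' : #s = ultraNumber.ord.cof := by
    rw [hsc]; exact Ordinal.cof_toType _
  let Y : ultraNumber.ord.ToType → Set ℝ := fun a => (fun b => ((e b : X) : ℝ)) '' Iic a
  have hY : ∀ a, #(Y a) < ultraNumber := by
    intro a
    refine mk_image_le.trans_lt ?_
    have h1 : #(Iio a) < ultraNumber := mk_Iio_toType_ord_lt a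
    have h2 : #(Iic a) ≤ #(Iio a) + 1 := by
      have : Iic a = insert a (Iio a) := by
        ext b; simp [le_iff_eq_or_lt]
      rw [this]
      exact mk_insert_le
    refine h2.trans_lt (add_lt_of_lt aleph0_le_ultra h1 (one_lt_aleph0.trans_le aleph0_le_ultra))
  refine ⟨Y '' s, ?_, ?_, ?_⟩
  · rintro _ ⟨a, -, rfl⟩
    exact hasSplit_of_lt (hY a)
  · have : ⋃₀ (Y '' s) = X := by
      ext x
      constructor
      · rintro ⟨_, ⟨a, -, rfl⟩, ⟨b, -, rfl⟩⟩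
        exact (e b).2
      · intro hx
        obtain ⟨a, ha, hba⟩ := hs (e.symm ⟨x, hx⟩)
        exact ⟨Y a, ⟨a, ha, rfl⟩, e.symm ⟨x, hx⟩, hba, by simp⟩
    rwa [this]
  · exact mk_image_le.trans hsc'.le

/-- **Theorem.** In ZFC, the additivity number of `Split(Ω, Λ)` (a minimum which is attained) is at
most the cofinality of the ultrafilter number `𝔲`; here `cf 𝔲 ≤ 𝔲 ≤ 𝔠`. -/
theorem result :
    (∃ 𝓕 : Set (Set ℝ), 𝓕 ⊆ splitSets ∧ ⋃₀ 𝓕 ∉ splitSets ∧ #𝓕 = addSplit) ∧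
      addSplit ≤ ultraNumber.ord.cof ∧ ultraNumber.ord.cof ≤ ultraNumber ∧ ultraNumber ≤ 𝔠 := by
  obtain ⟨𝓕, h1, h2, h3⟩ := exists_family
  refine ⟨?_, ?_, Ordinal.cof_ord_le _, ?_⟩
  · have : addSplit ∈ {κ | ∃ 𝓕 : Set (Set ℝ), 𝓕 ⊆ splitSets ∧ ⋃₀ 𝓕 ∉ splitSets ∧ #𝓕 = κ} :=
      csInf_mem ⟨_, 𝓕, h1, h2, rfl⟩
    exact this
  · have h4 : addSplit ≤ #𝓕 := csInf_le' ⟨𝓕, h1, h2, rfl⟩
    exact h4.trans h3
  · obtain ⟨X, hX, -⟩ := exists_not_split
    rw [← hX, ← mk_real]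
    exact mk_set_le X

end Pool.Agent.Results.MP_312f56_gt.AddLeCofUltrafilter
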